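import Mathlib
import Pool.Agent.Results.MP_7268ce_co.GrowthRateTwo

set_option autoImplicit false

open scoped Classical
open Filter Topology

namespace Pool.Agent.Results.MP_b75ab8_co.MatchingPennies

open Pool.Agent.Results.MP_7268ce_co.GrowthRateTwo (Good pBox limit_of_good)

variable {d k : ℕ}

/-- a coordinate value: bits addressed to the other coordinates, and a slice index -/
abbrev Val (d k : ℕ) := (Fin d → Bool) × Fin k

/-- coordinate `i` wins all the matching pennies games -/
def Win (c : Fin d → Fin d → Bool) (i : Fin d) : Prop :=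
  ∀ l, l ≠ i → c i l = (if i < l then c l i else !c l i)

lemma win_unique {c : Fin d → Fin d → Bool} {i j : Fin d} (hi : Win c i) (hj : Win c j) :
    i = j := by
  by_contra h
  have h1 := hi j (Ne.symm h)
  have h2 := hj i h
  rcases lt_or_gt_of_ne h with hlt | hlt
  · rw [if_pos hlt] at h1
    rw [if_neg (not_lt.2 hlt.le), h1] at h2
    simp at h2
  · rw [if_neg (not_lt.2 hlt.le)] at h1
    rw [if_pos hlt, h1] at h2
    simp at h2

/-- the bits of a point -/
def bits (y : Fin d → Val d k) : Fin d → Fin d → Bool := fun i => (y i).1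

/-- labels -/
abbrev Lab (d k : ℕ) := (Σ i : Fin d, ({l : Fin d // l ≠ i} → Bool) × Fin k) ⊕
  (Fin d → Fin d → Bool)

/-- the label of a point when `i` wins -/
def winLab (y : Fin d → Val d k) (i : Fin d) : Lab d k :=
  Sum.inl ⟨i, (fun l => (y i).1 l.1), (y i).2⟩

/-- the label of a point -/
noncomputable def F (y : Fin d → Val d k) : Lab d k :=
  if h : ∃ i, Win (bits y) i then winLab y h.choose else Sum.inr (bits y)

lemma F_win {y : Fin d → Val d k} {i : Fin d} (h : Win (bits y) i) : F y = winLab y i := by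
  have h' : ∃ i, Win (bits y) i := ⟨i, h⟩
  unfold F
  rw [dif_pos h', win_unique h'.choose_spec h]

lemma F_no {y : Fin d → Val d k} (h : ¬ ∃ i, Win (bits y) i) : F y = Sum.inr (bits y) := by
  unfold F
  rw [dif_neg h]

lemma F_mix (x y : Fin d → Val d k) (i₀ : Fin d) (h : F x = F y) :
    F (Function.update x i₀ (y i₀)) = F x := by
  set z := Function.update x i₀ (y i₀) with hz
  have hzc : ∀ j, z j = x j ∨ z j = y j := by
    intro j
    by_cases hj : j = i₀
    · subst hj; right; simp [hz]
    · left; rw [hz, Function.update_of_ne hj]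
  by_cases hx : ∃ i, Win (bits x) i
  · obtain ⟨i, hi⟩ := hx
    by_cases hy : ∃ j, Win (bits y) j
    · obtain ⟨j, hj⟩ := hy
      rw [F_win hi, F_win hj] at h
      unfold winLab at h
      have h' := Sum.inl.inj h
      have hij : i = j := congrArg Sigma.fst h'
      subst hij
      have h2 := eq_of_heq (Sigma.mk.inj h').2
      rw [Prod.mk.injEq] at h2
      obtain ⟨hb, hs⟩ := h2
      have hb' : ∀ l, l ≠ i → (x i).1 l = (y i).1 l := fun l hl => congrFun hb ⟨l, hl⟩
      have hzi : ∀ l, l ≠ i → (z i).1 l = (x i).1 l := by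
        intro l hl
        rcases hzc i with h1 | h1
        · rw [h1]
        · rw [h1, hb' l hl]
      have hzs : (z i).2 = (x i).2 := by
        rcases hzc i with h1 | h1
        · rw [h1]
        · rw [h1, hs]
      have hw : Win (bits z) i := by
        intro l hl
        have e1 := hi l hl
        have e2 := hj l hl
        unfold bits at e1 e2 ⊢
        rw [hzi l hl]
        rcases hzc l with h1 | h1
        · rw [h1]; exact e1
        · rw [h1, hb' l hl]; exact e2
      rw [F_win hw, F_win hi]
      unfold winLab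
      congr 2
      rw [Prod.mk.injEq]
      exact ⟨funext fun l => hzi l.1 l.2, hzs⟩
    · rw [F_win hi, F_no hy] at h
      exact absurd h (by unfold winLab; simp)
  · by_cases hy : ∃ j, Win (bits y) j
    · obtain ⟨j, hj⟩ := hy
      rw [F_no hx, F_win hj] at h
      exact absurd h (by unfold winLab; simp)
    · rw [F_no hx, F_no hy] at h
      have hb : bits x = bits y := Sum.inr.inj h
      have hbz : bits z = bits x := by
        funext j
        unfold bits
        rcases hzc j with h1 | h1
        · rw [h1]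
        · rw [h1]; exact (congrFun hb j).symm
      rw [F_no (by rw [hbz]; exact hx), F_no hx, hbz]

lemma F_line (i : Fin d) (c : Fin d → Val d k) :
    k ≤ (F '' {x | ∀ j, j ≠ i → x j = c j}).ncard := by
  set b : Fin d → Bool := fun l => if i < l then (c l).1 i else !(c l).1 i with hb
  let X : Fin k → (Fin d → Val d k) := fun s => Function.update c i (b, s)
  have hX : ∀ s, Win (bits (X s)) i := by
    intro s l hl
    have e1 : bits (X s) i l = b l := by simp [bits, X]
    have e2 : bits (X s) l i = (c l).1 i := by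
      unfold bits
      simp only [X]
      rw [Function.update_of_ne hl]
    rw [e1, e2]
  have hinj : Function.Injective (fun s => F (X s)) := by
    intro s t hst
    simp only [F_win (hX s), F_win (hX t)] at hst
    unfold winLab at hst
    have h' := Sum.inl.inj hst
    have h2 := eq_of_heq (Sigma.mk.inj h').2
    rw [Prod.mk.injEq] at h2
    have h3 := h2.2
    simpa [X] using h3
  have h1 : (Set.range (fun s => F (X s))).ncard = k := by
    rw [← Set.image_univ, Set.ncard_image_of_injective _ hinj, Set.ncard_univ]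
    simp
  refine le_trans (le_of_eq h1.symm) (Set.ncard_le_ncard ?_ (Set.toFinite _))
  rintro _ ⟨s, rfl⟩
  exact ⟨X s, fun j hj => Function.update_of_ne hj _ _, rfl⟩

lemma F_count : (Set.range (F (d := d) (k := k))).ncard ≤ d * 2 ^ (d - 1) * k + 2 ^ (d * d) := by
  refine le_trans (Set.ncard_le_ncard (Set.subset_univ _) (Set.toFinite _)) ?_
  rw [Set.ncard_univ, Nat.card_eq_fintype_card, Fintype.card_sum, Fintype.card_sigma]
  have h1 : ∀ i : Fin d, Fintype.card (({l : Fin d // l ≠ i} → Bool) × Fin k) =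
      2 ^ (d - 1) * k := by
    intro i
    rw [Fintype.card_prod, Fintype.card_fun, Fintype.card_bool, Fintype.card_fin]
    congr 2
    rw [Fintype.card_subtype_compl, Fintype.card_fin]
    simp
  rw [Finset.sum_congr rfl fun i _ => h1 i]
  simp only [Finset.sum_const, Finset.card_univ, Fintype.card_fin, smul_eq_mul,
    Fintype.card_fun, Fintype.card_bool]
  rw [← pow_mul]
  apply le_of_eq
  ring

lemma good (d k : ℕ) : Good (Val d k) d k (d * 2 ^ (d - 1) * k + 2 ^ (d * d)) :=
  ⟨Lab d k, inferInstance, F, F_mix, F_line, F_count⟩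

/-- `p(d, k) = lim_n p(n, d, k)` exists and is at most `d 2^(d-1) k + 2^(d²)`; consequently
`C_d = lim_k p(d, k) / k ≤ d 2^(d-1)`. -/
theorem result (d : ℕ) :
    ∃ p : ℕ → ℝ, (∀ k, 1 ≤ k → Tendsto (fun n : ℕ => (pBox n d k : ℝ)) atTop (𝓝 (p k))) ∧
      (∀ k, 1 ≤ k → p k ≤ d * 2 ^ (d - 1) * k + 2 ^ (d * d)) ∧
      ∀ C : ℝ, Tendsto (fun k : ℕ => p k / k) atTop (𝓝 C) → C ≤ d * 2 ^ (d - 1) := by
  have h : ∀ k : ℕ, ∃ L : ℝ, 1 ≤ k → Tendsto (fun n : ℕ => (pBox n d k : ℝ)) atTop (𝓝 L) ∧
      L ≤ d * 2 ^ (d - 1) * k + 2 ^ (d * d) := by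
    intro k
    by_cases hk : 1 ≤ k
    · have : Nonempty (Fin k) := ⟨⟨0, hk⟩⟩
      obtain ⟨L, h1, h2⟩ := limit_of_good (good d k)
      refine ⟨L, fun _ => ⟨h1, ?_⟩⟩
      push_cast at h2
      exact h2
    · exact ⟨0, fun hk' => absurd hk' hk⟩
  choose p hp using h
  refine ⟨p, fun k hk => (hp k hk).1, fun k hk => (hp k hk).2, ?_⟩
  intro C hC
  have h2 : Tendsto (fun k : ℕ => (d * 2 ^ (d - 1) : ℝ) + 2 ^ (d * d) / (k : ℝ)) atTop
      (𝓝 (d * 2 ^ (d - 1) + 0)) :=
    tendsto_const_nhds.add (tendsto_const_div_atTop_nhds_zero_nat _)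
  rw [add_zero] at h2
  refine le_of_tendsto_of_tendsto hC h2 ?_
  filter_upwards [eventually_ge_atTop 1] with k hk
  have hk' : (0 : ℝ) < k := by exact_mod_cast hk
  rw [div_le_iff₀ hk', add_mul, div_mul_cancel₀ _ hk'.ne']
  exact (hp k hk).2

end Pool.Agent.Results.MP_b75ab8_co.MatchingPennies
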